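import Pool.Agent.Helper66.SC.Defs
import Pool.Agent.Helper22.SC.Conv
import Pool.Agent.Helper22.SC.Ops3

/-! Module G3: preservation of `SL` and strong limits. -/

namespace Pool.Agent.Helper78.SC

universe u

open ZFSet
open Pool.Agent.Helper66.SC
open Pool.Agent.Helper22.SC (ZCls URel U In in_zfset in_prod gr mem_gr pair_mem_gr)

theorem cardLe_mono {M N : Set ZFSet.{u}} (h : M ⊆ N) {a b : ZFSet.{u}} (hab : CardLe M a b) :
    CardLe N a b := by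
  obtain ⟨f, hf, h1, h2⟩ := hab
  exact ⟨f, h hf, h1, h2⟩

theorem oz_mem_of_lt {M A : Set ZFSet.{u}} (hM : IsZF M A) {a o : Ordinal.{u}} (h : oz o ∈ M)
    (ha : a < o) : oz a ∈ M :=
  hM.trans _ h _ (Ordinal.toZFSet_mem_toZFSet_iff.2 ha)

theorem pow_mem {M A : Set ZFSet.{u}} (hM : IsZF M A) {a : ZFSet.{u}} (ha : a ∈ M) :
    Helper66.SC.Pow M a ∈ M :=
  in_zfset.1 ((U.pow (C := fun M A => IsZF M A) (U.id (α := ZFSet.{u}))).closed hM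
    (a := a) (in_zfset.2 ha))

theorem prod_mem {M A : Set ZFSet.{u}} (hM : IsZF M A) {a b : ZFSet.{u}} (ha : a ∈ M)
    (hb : b ∈ M) : a.prod b ∈ M := by
  have := (U.prod (C := fun M A => IsZF M A) (α := ZFSet.{u} × ZFSet.{u}) U.id.fst
    U.id.snd).closed hM (a := (a, b)) (by simp [ha, hb])
  simpa using this

/-- The evaluation of codes for subsets of `a`. -/
noncomputable def ev (G Q a s : ZFSet.{u}) : ZFSet.{u} :=
  ZFSet.sep (fun x => ∃ b ∈ G, b ∈ Q ∧ ZFSet.pair x b ∈ s) a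

theorem gr_ev_mem {N A : Set ZFSet.{u}} (hN : IsZF N A) {D G Q a : ZFSet.{u}} (hD : D ∈ N)
    (hG : G ∈ N) (hQ : Q ∈ N) (ha : a ∈ N) : gr D (ev G Q a) ∈ N := by
  have h : U (fun M A => IsZF M A) (fun _ _ (p : (ZFSet.{u} × ZFSet.{u}) × (ZFSet.{u} × ZFSet.{u})) =>
      gr p.1.1 (fun s => ev p.1.2 p.2.1 p.2.2 s)) := by
    unfold ev
    apply_rules (transparency := .reducible) (maxDepth := 400) using is_poly
  have := h.closed hN (a := ((D, G), (Q, a))) (by simp [hD, hG, hQ, ha])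
  simpa using this

theorem st_G3 (hG2 : ST_G2.{u}) (hK1 : ST_K1.{u}) (hK2 : ST_K2.{u}) (hFB4 : ST_FB4.{u})
    (hFB1 : ST_FB1.{u}) : ST_G3.{u} := by
  intro M P Q R G o hM hWO hS hG hSL hQ hR
  have hN : IsZF (Ext M G) ∅ := hFB4 M P G hM hS.hP hG
  obtain ⟨hMN, hGN, -, hord, -⟩ := hFB1 M ∅ P G hM hS.hP hG
  obtain ⟨h1, h2, h3, h4, h5, h6⟩ := hSL
  obtain ⟨k1, k2, k3, k4, k5⟩ := hK1 M ∅ hM
  refine ⟨hMN _ h1, h2, h3, ?_, fun a ha => ?_, fun a ha => ?_⟩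
  rotate_left
  · obtain ⟨c, hc, h⟩ := h5 a ha
    exact ⟨c, hc, cardLe_mono hMN h⟩
  · obtain ⟨c, hc, h⟩ := h6 a ha
    exact ⟨c, hc, cardLe_mono hMN h⟩
  intro a ha
  obtain ⟨c0, hc0, hQc⟩ := hQ
  have haM := oz_mem_of_lt hM h1 ha
  have hc0M := oz_mem_of_lt hM h1 hc0
  have hmo : max a c0 < o := max_lt ha hc0
  have hmM := oz_mem_of_lt hM h1 hmo
  have e1 : CardLe M (oz a) (oz (max a c0)) :=
    k1 _ haM _ hmM (Ordinal.toZFSet_subset_toZFSet_iff.2 (le_max_left _ _))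
  have e2 : CardLe M Q (oz (max a c0)) :=
    k2 _ hS.hQ _ hc0M _ hmM hQc
      (k1 _ hc0M _ hmM (Ordinal.toZFSet_subset_toZFSet_iff.2 (le_max_right _ _)))
  have haQ := prod_mem hM haM hS.hQ
  obtain ⟨θ, hθ, e3⟩ := h5 _ hmo
  have hθM := oz_mem_of_lt hM h1 hθ
  have e4 : CardLe M ((oz a).prod Q) (oz θ) :=
    k2 _ haQ _ (prod_mem hM hmM hmM) _ hθM (k3 _ haM _ hS.hQ _ hmM _ hmM e1 e2) e3
  obtain ⟨c, hc, e5⟩ := h4 _ hθ
  have hcM := oz_mem_of_lt hM h1 hc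
  have hDM := pow_mem hM haQ
  have e6 : CardLe M (Helper66.SC.Pow M ((oz a).prod Q)) (oz c) :=
    k2 _ hDM _ (pow_mem hM hθM) _ hcM (k4 _ haQ _ hθM e4) e5
  refine ⟨c, hc, ?_⟩
  refine hK2 (Ext M G) ∅ hN (Helper66.SC.Pow M ((oz a).prod Q)) (hMN _ hDM) (Helper66.SC.Pow (Ext M G) (oz a))
    (pow_mem hN (hMN _ haM)) (gr (Helper66.SC.Pow M ((oz a).prod Q)) (ev G Q (oz a)))
    (gr_ev_mem hN (hMN _ hDM) hGN (hMN _ hS.hQ) (hMN _ haM)) c (hMN _ hcM)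
    (cardLe_mono hMN e6) ?_ ?_
  · intro x y z hy hz
    rw [(pair_mem_gr.1 hy).2, (pair_mem_gr.1 hz).2]
  · intro X hX
    rw [mem_Pow] at hX
    obtain ⟨σ, hσM, hσ, h⟩ := hG2 M P Q R G a θ hM hWO hS hG haM hθM e4 (hR θ hθ) X hX.1 hX.2
    refine ⟨σ, mem_Pow.2 ⟨hσM, hσ⟩, pair_mem_gr.2 ⟨mem_Pow.2 ⟨hσM, hσ⟩, ?_⟩⟩
    ext x
    unfold ev
    rw [ZFSet.mem_sep]
    constructor
    · intro hx
      have hxa := hX.2 hx
      exact ⟨hxa, (h x hxa).1 hx⟩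
    · rintro ⟨hxa, hx⟩
      exact (h x hxa).2 hx

theorem st_G4 (hK1 : ST_K1.{u}) : ST_G4.{u} := by
  intro M A hM o hSL
  obtain ⟨h1, h2, h3, h4, h5, h6⟩ := hSL
  obtain ⟨k1, k2, k3, k4, k5⟩ := hK1 M A hM
  have hcard : ∀ b < o, ¬ CardLe M (oz o) (oz b) := by
    intro b hb h
    have hbM := oz_mem_of_lt hM h1 hb
    obtain ⟨c, hc, e⟩ := h4 b hb
    have hcM := oz_mem_of_lt hM h1 hc
    have hPM := pow_mem hM hbM
    refine k5 _ hbM (k2 _ hPM _ h1 _ hbM ?_ h)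
    exact k2 _ hPM _ hcM _ h1 e (k1 _ hcM _ h1
      (Ordinal.toZFSet_subset_toZFSet_iff.2 hc.le))
  refine ⟨⟨h1, isOrdinal_toZFSet _, ?_⟩, ?_, ?_⟩
  · intro β hβ
    obtain ⟨b, hb, rfl⟩ := Ordinal.mem_toZFSet_iff.1 hβ
    exact hcard b hb
  · intro h0
    have : oz (0 : Ordinal.{u}) ∈ oz o :=
      Ordinal.toZFSet_mem_toZFSet_iff.2 (lt_of_le_of_lt (zero_le) h2)
    rw [h0] at this
    exact ZFSet.notMem_empty _ this
  · intro β hβ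
    obtain ⟨b, hb, rfl⟩ := Ordinal.mem_toZFSet_iff.1 hβ
    have hbM := oz_mem_of_lt hM h1 hb
    refine ⟨Helper66.SC.Pow M (oz b), pow_mem hM hbM, fun z => mem_Pow, ?_⟩
    intro h
    obtain ⟨c, hc, e⟩ := h4 b hb
    exact hcard c hc (k2 _ h1 _ (pow_mem hM hbM) _ (oz_mem_of_lt hM h1 hc) h e)

end Pool.Agent.Helper78.SC
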